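import Mathlib

open MeasureTheory Set Filter
open scoped ENNReal NNReal Topology

namespace Pool.Agent.X86.Marc

lemma lint_Ioo (q x : ℝ) (hq : -1 < q) (hx : 0 ≤ x) :
    ∫⁻ l in Ioo 0 x, ENNReal.ofReal (l ^ q) = ENNReal.ofReal (x ^ (q + 1) / (q + 1)) := by
  have hint : IntervalIntegrable (fun l : ℝ => l ^ q) volume 0 x :=
    intervalIntegral.intervalIntegrable_rpow' hq
  have h1 : IntegrableOn (fun l : ℝ => l ^ q) (Ioo 0 x) := by
    have := (intervalIntegrable_iff_integrableOn_Ioo_of_le hx).mp hint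
    exact this
  rw [← ofReal_integral_eq_lintegral_ofReal h1]
  · rw [← integral_Ioc_eq_integral_Ioo, ← intervalIntegral.integral_of_le hx,
      integral_rpow (Or.inl hq), Real.zero_rpow (by linarith), sub_zero]
  · filter_upwards [ae_restrict_mem measurableSet_Ioo] with l hl
    exact Real.rpow_nonneg hl.1.le _

lemma lint_Ici (q x : ℝ) (hq : q < -1) (hx : 0 < x) :
    ∫⁻ l in Ici x, ENNReal.ofReal (l ^ q) = ENNReal.ofReal (x ^ (q + 1) / (-(q + 1))) := by
  rw [setLIntegral_congr (Ioi_ae_eq_Ici (a := x)).symm]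
  rw [← ofReal_integral_eq_lintegral_ofReal (integrableOn_Ioi_rpow_of_lt hq hx)]
  · rw [integral_Ioi_rpow_of_lt hq hx, div_neg, neg_div]
  · filter_upwards [ae_restrict_mem measurableSet_Ioi] with l hl
    exact Real.rpow_nonneg (hx.trans hl).le _

/-- Marcinkiewicz type inequality. -/
theorem marc {Ω : Type*} [MeasurableSpace Ω] (μ : Measure Ω) [SFinite μ] {f h : Ω → ℝ}
    (hf : Measurable f) (hh : Measurable h) (hf0 : ∀ t, 0 ≤ f t) (hh0 : ∀ t, 0 ≤ h t)
    {α β γ : ℝ} (hβ : 0 < β) (hβγ : β < γ) (hγα : γ < α)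
    (hyp : ∀ l : ℝ, 0 < l → μ {t | l < f t} ≤
      ENNReal.ofReal (l ^ (-β)) * ∫⁻ t in {t | l < h t}, ENNReal.ofReal (h t ^ β) ∂μ
      + ENNReal.ofReal (l ^ (-α)) * ∫⁻ t in {t | h t ≤ l}, ENNReal.ofReal (h t ^ α) ∂μ) :
    ∫⁻ t, ENNReal.ofReal (f t ^ γ) ∂μ ≤
      ENNReal.ofReal (γ * (1 / (γ - β) + 1 / (α - γ))) * ∫⁻ t, ENNReal.ofReal (h t ^ γ) ∂μ := by
  have hγ : 0 < γ := hβ.trans hβγ
  rw [lintegral_rpow_eq_lintegral_meas_lt_mul μ (Eventually.of_forall hf0) hf.aemeasurable hγ]
  rw [ENNReal.ofReal_mul hγ.le, mul_assoc]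
  gcongr
  -- the two Tonelli computations
  have hA : ∫⁻ l in Ioi (0:ℝ), (ENNReal.ofReal (l ^ (-β)) *
        ∫⁻ t in {t | l < h t}, ENNReal.ofReal (h t ^ β) ∂μ) * ENNReal.ofReal (l ^ (γ - 1))
      = ENNReal.ofReal (1 / (γ - β)) * ∫⁻ t, ENNReal.ofReal (h t ^ γ) ∂μ := by
    have e1 : ∀ l ∈ Ioi (0:ℝ), (ENNReal.ofReal (l ^ (-β)) *
        ∫⁻ t in {t | l < h t}, ENNReal.ofReal (h t ^ β) ∂μ) * ENNReal.ofReal (l ^ (γ - 1))
        = ∫⁻ t, {q : ℝ × Ω | q.1 < h q.2}.indicator
            (fun q => ENNReal.ofReal (q.1 ^ (γ - 1 - β)) * ENNReal.ofReal (h q.2 ^ β)) (l, t) ∂μ := by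
      intro l hl
      have hl' : (0:ℝ) < l := hl
      have hm : MeasurableSet {t | l < h t} := measurableSet_lt measurable_const hh
      have e3 : (fun t => {q : ℝ × Ω | q.1 < h q.2}.indicator
            (fun q => ENNReal.ofReal (q.1 ^ (γ - 1 - β)) * ENNReal.ofReal (h q.2 ^ β)) (l, t))
          = {t | l < h t}.indicator
            (fun t => ENNReal.ofReal (l ^ (γ - 1 - β)) * ENNReal.ofReal (h t ^ β)) := by
        ext t
        simp [Set.indicator]
      rw [e3, lintegral_indicator hm, lintegral_const_mul' _ _ ENNReal.ofReal_ne_top]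
      rw [mul_right_comm, ← ENNReal.ofReal_mul (Real.rpow_nonneg hl'.le _),
        ← Real.rpow_add hl']
      congr 3
      ring_nf
    rw [setLIntegral_congr_fun measurableSet_Ioi e1]
    have hmeas : Measurable (Function.uncurry fun (l : ℝ) (t : Ω) =>
        {q : ℝ × Ω | q.1 < h q.2}.indicator
          (fun q => ENNReal.ofReal (q.1 ^ (γ - 1 - β)) * ENNReal.ofReal (h q.2 ^ β)) (l, t)) := by
      have : (Function.uncurry fun (l : ℝ) (t : Ω) =>
        {q : ℝ × Ω | q.1 < h q.2}.indicator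
          (fun q => ENNReal.ofReal (q.1 ^ (γ - 1 - β)) * ENNReal.ofReal (h q.2 ^ β)) (l, t))
          = {q : ℝ × Ω | q.1 < h q.2}.indicator
          (fun q => ENNReal.ofReal (q.1 ^ (γ - 1 - β)) * ENNReal.ofReal (h q.2 ^ β)) := by
        ext ⟨l, t⟩; rfl
      rw [this]
      refine Measurable.indicator (by fun_prop) ?_
      exact measurableSet_lt measurable_fst (hh.comp measurable_snd)
    rw [lintegral_lintegral_swap hmeas.aemeasurable]
    rw [← lintegral_const_mul' _ _ ENNReal.ofReal_ne_top]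
    congr 1
    ext t
    have e4 : (fun l : ℝ => {q : ℝ × Ω | q.1 < h q.2}.indicator
            (fun q => ENNReal.ofReal (q.1 ^ (γ - 1 - β)) * ENNReal.ofReal (h q.2 ^ β)) (l, t))
          = (Iio (h t)).indicator
            (fun l => ENNReal.ofReal (l ^ (γ - 1 - β)) * ENNReal.ofReal (h t ^ β)) := by
        ext l
        simp [Set.indicator]
    rw [e4, lintegral_indicator measurableSet_Iio, Measure.restrict_restrict measurableSet_Iio,
      lintegral_mul_const' _ _ ENNReal.ofReal_ne_top]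
    have e5 : Iio (h t) ∩ Ioi 0 = Ioo 0 (h t) := by ext l; simp [and_comm]
    rw [e5, lint_Ioo _ _ (by linarith) (hh0 t), ← ENNReal.ofReal_mul' (Real.rpow_nonneg (hh0 t) _),
      ← ENNReal.ofReal_mul (by
        have : 0 < γ - β := by linarith
        positivity)]
    congr 1
    rcases eq_or_lt_of_le (hh0 t) with h0 | h0
    · rw [← h0, Real.zero_rpow hγ.ne', Real.zero_rpow hβ.ne']; simp
    · have : γ - 1 - β + 1 = γ - β := by ring
      rw [this, div_mul_eq_mul_div, ← Real.rpow_add h0]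
      have : γ - β + β = γ := by ring
      rw [this]
      field_simp
  have hB : ∫⁻ l in Ioi (0:ℝ), (ENNReal.ofReal (l ^ (-α)) *
        ∫⁻ t in {t | h t ≤ l}, ENNReal.ofReal (h t ^ α) ∂μ) * ENNReal.ofReal (l ^ (γ - 1))
      = ENNReal.ofReal (1 / (α - γ)) * ∫⁻ t, ENNReal.ofReal (h t ^ γ) ∂μ := by
    have e1 : ∀ l ∈ Ioi (0:ℝ), (ENNReal.ofReal (l ^ (-α)) *
        ∫⁻ t in {t | h t ≤ l}, ENNReal.ofReal (h t ^ α) ∂μ) * ENNReal.ofReal (l ^ (γ - 1))
        = ∫⁻ t, {q : ℝ × Ω | h q.2 ≤ q.1}.indicator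
            (fun q => ENNReal.ofReal (q.1 ^ (γ - 1 - α)) * ENNReal.ofReal (h q.2 ^ α)) (l, t) ∂μ := by
      intro l hl
      have hl' : (0:ℝ) < l := hl
      have hm : MeasurableSet {t | h t ≤ l} := measurableSet_le hh measurable_const
      have e3 : (fun t => {q : ℝ × Ω | h q.2 ≤ q.1}.indicator
            (fun q => ENNReal.ofReal (q.1 ^ (γ - 1 - α)) * ENNReal.ofReal (h q.2 ^ α)) (l, t))
          = {t | h t ≤ l}.indicator
            (fun t => ENNReal.ofReal (l ^ (γ - 1 - α)) * ENNReal.ofReal (h t ^ α)) := by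
        ext t
        simp [Set.indicator]
      rw [e3, lintegral_indicator hm, lintegral_const_mul' _ _ ENNReal.ofReal_ne_top]
      rw [mul_right_comm, ← ENNReal.ofReal_mul (Real.rpow_nonneg hl'.le _),
        ← Real.rpow_add hl']
      congr 3
      ring_nf
    rw [setLIntegral_congr_fun measurableSet_Ioi e1]
    have hmeas : Measurable (Function.uncurry fun (l : ℝ) (t : Ω) =>
        {q : ℝ × Ω | h q.2 ≤ q.1}.indicator
          (fun q => ENNReal.ofReal (q.1 ^ (γ - 1 - α)) * ENNReal.ofReal (h q.2 ^ α)) (l, t)) := by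
      have : (Function.uncurry fun (l : ℝ) (t : Ω) =>
        {q : ℝ × Ω | h q.2 ≤ q.1}.indicator
          (fun q => ENNReal.ofReal (q.1 ^ (γ - 1 - α)) * ENNReal.ofReal (h q.2 ^ α)) (l, t))
          = {q : ℝ × Ω | h q.2 ≤ q.1}.indicator
          (fun q => ENNReal.ofReal (q.1 ^ (γ - 1 - α)) * ENNReal.ofReal (h q.2 ^ α)) := by
        ext ⟨l, t⟩; rfl
      rw [this]
      refine Measurable.indicator (by fun_prop) ?_
      exact measurableSet_le (hh.comp measurable_snd) measurable_fst
    rw [lintegral_lintegral_swap hmeas.aemeasurable]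
    rw [← lintegral_const_mul' _ _ ENNReal.ofReal_ne_top]
    congr 1
    ext t
    have e4 : (fun l : ℝ => {q : ℝ × Ω | h q.2 ≤ q.1}.indicator
            (fun q => ENNReal.ofReal (q.1 ^ (γ - 1 - α)) * ENNReal.ofReal (h q.2 ^ α)) (l, t))
          = (Ici (h t)).indicator
            (fun l => ENNReal.ofReal (l ^ (γ - 1 - α)) * ENNReal.ofReal (h t ^ α)) := by
        ext l
        simp [Set.indicator]
    rw [e4, lintegral_indicator measurableSet_Ici, Measure.restrict_restrict measurableSet_Ici,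
      lintegral_mul_const' _ _ ENNReal.ofReal_ne_top]
    rcases eq_or_lt_of_le (hh0 t) with h0 | h0
    · rw [← h0, Real.zero_rpow hγ.ne', Real.zero_rpow (by linarith)]; simp
    · have e5 : Ici (h t) ∩ Ioi 0 = Ici (h t) := by
        ext l; simp only [mem_inter_iff, mem_Ici, mem_Ioi]
        constructor
        · exact fun h => h.1
        · exact fun h => ⟨h, h0.trans_le h⟩
      have h7 : 0 < α - γ := by linarith
      rw [e5, lint_Ici _ _ (by linarith) h0, ← ENNReal.ofReal_mul' (by positivity),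
        ← ENNReal.ofReal_mul (by positivity)]
      congr 1
      have : γ - 1 - α + 1 = γ - α := by ring
      rw [this, div_mul_eq_mul_div, ← Real.rpow_add h0]
      have : γ - α + α = γ := by ring
      rw [this]
      have : -(γ - α) = α - γ := by ring
      rw [this]
      field_simp
  calc ∫⁻ l in Ioi (0:ℝ), μ {a | l < f a} * ENNReal.ofReal (l ^ (γ - 1))
      ≤ ∫⁻ l in Ioi (0:ℝ), ((ENNReal.ofReal (l ^ (-β)) *
          ∫⁻ t in {t | l < h t}, ENNReal.ofReal (h t ^ β) ∂μ) * ENNReal.ofReal (l ^ (γ - 1))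
          + (ENNReal.ofReal (l ^ (-α)) *
          ∫⁻ t in {t | h t ≤ l}, ENNReal.ofReal (h t ^ α) ∂μ) * ENNReal.ofReal (l ^ (γ - 1))) := by
        apply setLIntegral_mono' measurableSet_Ioi
        intro l hl
        rw [← add_mul]
        gcongr
        exact hyp l hl
    _ ≤ _ := by
        rw [lintegral_add_left']
        · rw [hA, hB, ← add_mul, ← ENNReal.ofReal_add]
          · have : 0 < γ - β := by linarith
            positivity
          · have : 0 < α - γ := by linarith
            positivity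
        · refine AEMeasurable.mul (AEMeasurable.mul (by fun_prop) ?_) (by fun_prop)
          refine Measurable.aemeasurable ?_
          have hanti : Antitone (fun l : ℝ => ∫⁻ t in {t | l < h t}, ENNReal.ofReal (h t ^ β) ∂μ) := by
            intro a b hab
            apply lintegral_mono_set
            intro t ht
            exact lt_of_le_of_lt hab ht
          exact hanti.measurable

end Pool.Agent.X86.Marc
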